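import Mathlib
import Pool.Agent.L7h3.CE.Stm

/-! Counting of the boundaries of the colour classes. -/

set_option autoImplicit false

namespace Pool.Agent.L7h63.CE

open Set Pool.Agent.Helper391.Lg
open Pool.Agent.L7h3.CE (crs Solid Four S_CNT S_SOLU S_REF S_SCON)

universe u

variable {V : Type u}

lemma mk_bd {G : SimpleGraph V} {U : Set V} {u v : V} :
    s(u, v) ∈ bd G U ↔ G.Adj u v ∧ ((u ∈ U ∧ v ∉ U) ∨ (v ∈ U ∧ u ∉ U)) := by
  unfold bd
  simp only [Set.mem_ofPred_eq, SimpleGraph.mem_edgeSet, Sym2.mem_iff]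
  constructor
  · rintro ⟨h, ⟨x, hx, hx'⟩, y, hy, hy'⟩
    refine ⟨h, ?_⟩
    rcases hx with rfl | rfl <;> rcases hy with rfl | rfl
    · exact absurd hx' hy'
    · exact Or.inl ⟨hx', hy'⟩
    · exact Or.inr ⟨hx', hy'⟩
    · exact absurd hx' hy'
  · rintro ⟨h, ⟨h1, h2⟩ | ⟨h1, h2⟩⟩
    · exact ⟨h, ⟨u, Or.inl rfl, h1⟩, v, Or.inr rfl, h2⟩
    · exact ⟨h, ⟨v, Or.inr rfl, h1⟩, u, Or.inl rfl, h2⟩

lemma mk_crs {G : SimpleGraph V} {C : Set V} {f : V → ℕ} {u v : V} :
    s(u, v) ∈ crs G C f ↔ G.Adj u v ∧ u ∈ C ∧ v ∈ C ∧ f u ≠ f v := by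
  unfold crs ins
  simp only [Set.mem_ofPred_eq, SimpleGraph.mem_edgeSet, Sym2.mem_iff]
  constructor
  · rintro ⟨⟨h, h1⟩, x, hx, y, hy, hxy⟩
    refine ⟨h, h1 u (Or.inl rfl), h1 v (Or.inr rfl), ?_⟩
    rcases hx with rfl | rfl <;> rcases hy with rfl | rfl
    · exact absurd rfl hxy
    · exact hxy
    · exact hxy.symm
    · exact absurd rfl hxy
  · rintro ⟨h, h1, h2, h3⟩
    refine ⟨⟨h, ?_⟩, u, Or.inl rfl, v, Or.inr rfl, h3⟩
    rintro x (rfl | rfl)
    · exact h1
    · exact h2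

/-- the class of the colour `c` -/
def cls (C : Set V) (f : V → ℕ) (c : ℕ) : Set V := {v | v ∈ C ∧ f v = c}

lemma cls_sub (G : SimpleGraph V) (C : Set V) (f : V → ℕ) (c : ℕ) :
    bd G (cls C f c) ⊆ crs G C f ∪ bd G C := by
  intro e
  induction e using Sym2.ind with
  | _ u v =>
    rw [Set.mem_union, mk_bd, mk_bd, mk_crs]
    rintro ⟨h, ⟨⟨h1, h2⟩, h3⟩ | ⟨⟨h1, h2⟩, h3⟩⟩
    · by_cases hv : v ∈ C
      · exact Or.inl ⟨h, h1, hv, fun k => h3 ⟨hv, by rw [← k]; exact h2⟩⟩
      · exact Or.inr ⟨h, Or.inl ⟨h1, hv⟩⟩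
    · by_cases hu : u ∈ C
      · exact Or.inl ⟨h, hu, h1, fun k => h3 ⟨hu, by rw [k]; exact h2⟩⟩
      · exact Or.inr ⟨h, Or.inr ⟨h1, hu⟩⟩

lemma crs_bd_disj (G : SimpleGraph V) (C : Set V) (f : V → ℕ) : Disjoint (crs G C f) (bd G C) := by
  rw [Set.disjoint_left]
  intro e
  induction e using Sym2.ind with
  | _ u v =>
    rw [mk_bd, mk_crs]
    rintro ⟨_, h1, h2, _⟩ ⟨_, ⟨_, h4⟩ | ⟨_, h4⟩⟩
    · exact h4 h2
    · exact h4 h1

theorem s_CNT : S_CNT.{u} := by
  classical
  intro V G C f hf hc hb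
  have fin : ∀ c, (bd G (cls C f c)).Finite := fun c => (hc.union hb).subset (cls_sub G C f c)
  refine ⟨fin, ?_⟩
  change ∑ c ∈ hf.toFinset, (bd G (cls C f c)).ncard = _
  set F := hc.toFinset with hF
  set B := hb.toFinset with hB
  have dj : Disjoint F B := by
    rw [Finset.disjoint_left]
    intro e he he'
    rw [hF, Set.Finite.mem_toFinset] at he
    rw [hB, Set.Finite.mem_toFinset] at he'
    exact Set.disjoint_left.1 (crs_bd_disj G C f) he he'
  have e1 : ∀ c, (bd G (cls C f c)).ncard =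
      ((F ∪ B).bipartiteAbove (fun c e => e ∈ bd G (cls C f c)) c).card := by
    intro c
    rw [← Set.ncard_coe_finset]
    congr 1
    ext e
    simp only [Finset.bipartiteAbove, Finset.coe_filter, Finset.mem_union, hF, hB,
      Set.Finite.mem_toFinset, Set.mem_ofPred_eq]
    exact ⟨fun h => ⟨cls_sub G C f c h, h⟩, fun h => h.2⟩
  rw [Finset.sum_congr rfl fun c _ => e1 c,
    Finset.sum_card_bipartiteAbove_eq_sum_card_bipartiteBelow, Finset.sum_union dj,
    Set.ncard_eq_toFinset_card _ hc, Set.ncard_eq_toFinset_card _ hb]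
  have e2 : ∀ e ∈ F, (hf.toFinset.bipartiteBelow (fun c e => e ∈ bd G (cls C f c)) e).card = 2 := by
    intro e
    induction e using Sym2.ind with
    | _ u v =>
      rw [hF, Set.Finite.mem_toFinset, mk_crs]
      rintro ⟨h, h1, h2, h3⟩
      have : hf.toFinset.bipartiteBelow (fun c e => e ∈ bd G (cls C f c)) s(u, v) =
          {f u, f v} := by
        ext c
        simp only [Finset.bipartiteBelow, Finset.mem_filter, Set.Finite.mem_toFinset, mk_bd,
          Finset.mem_insert, Finset.mem_singleton]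
        constructor
        · rintro ⟨_, _, ⟨⟨_, k⟩, _⟩ | ⟨⟨_, k⟩, _⟩⟩
          · exact Or.inl k.symm
          · exact Or.inr k.symm
        · rintro (rfl | rfl)
          · exact ⟨⟨u, h1, rfl⟩, h, Or.inl ⟨⟨h1, rfl⟩, fun k => h3 k.2.symm⟩⟩
          · exact ⟨⟨v, h2, rfl⟩, h, Or.inr ⟨⟨h2, rfl⟩, fun k => h3 k.2⟩⟩
      rw [this, Finset.card_pair h3]
  have e3 : ∀ e ∈ B, (hf.toFinset.bipartiteBelow (fun c e => e ∈ bd G (cls C f c)) e).card = 1 := by
    intro e
    induction e using Sym2.ind with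
    | _ u v =>
      rw [hB, Set.Finite.mem_toFinset, mk_bd]
      rintro ⟨h, ⟨h1, h2⟩ | ⟨h1, h2⟩⟩
      · have : hf.toFinset.bipartiteBelow (fun c e => e ∈ bd G (cls C f c)) s(u, v) = {f u} := by
          ext c
          simp only [Finset.bipartiteBelow, Finset.mem_filter, Set.Finite.mem_toFinset, mk_bd,
            Finset.mem_singleton]
          constructor
          · rintro ⟨_, _, ⟨⟨_, k⟩, _⟩ | ⟨⟨k, _⟩, _⟩⟩
            · exact k.symm
            · exact absurd k h2
          · rintro rfl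
            exact ⟨⟨u, h1, rfl⟩, h, Or.inl ⟨⟨h1, rfl⟩, fun k => h2 k.1⟩⟩
        rw [this, Finset.card_singleton]
      · have : hf.toFinset.bipartiteBelow (fun c e => e ∈ bd G (cls C f c)) s(u, v) = {f v} := by
          ext c
          simp only [Finset.bipartiteBelow, Finset.mem_filter, Set.Finite.mem_toFinset, mk_bd,
            Finset.mem_singleton]
          constructor
          · rintro ⟨_, _, ⟨⟨k, _⟩, _⟩ | ⟨⟨_, k⟩, _⟩⟩
            · exact absurd k h2
            · exact k.symm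
          · rintro rfl
            exact ⟨⟨v, h1, rfl⟩, h, Or.inr ⟨⟨h1, rfl⟩, fun k => h2 k.1⟩⟩
        rw [this, Finset.card_singleton]
  rw [Finset.sum_congr rfl e2, Finset.sum_congr rfl e3]
  simp only [Finset.sum_const, smul_eq_mul, mul_one]
  ring

/-- if no class is the whole vertex set -/
lemma bound {G : SimpleGraph V} (H : Four G) {C : Set V} {f : V → ℕ} (hf : (f '' C).Finite)
    (hc : (crs G C f).Finite) (hb : (bd G C).Finite) (h : ∀ c ∈ f '' C, ∃ v, v ∉ cls C f c) :
    4 * (f '' C).ncard ≤ 2 * (crs G C f).ncard + (bd G C).ncard := by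
  classical
  obtain ⟨h1, h2⟩ := s_CNT V G C f hf hc hb
  have h3 : ∀ c ∈ hf.toFinset, 4 ≤ (bd G {v | v ∈ C ∧ f v = c}).ncard := by
    intro c hc'
    rw [Set.Finite.mem_toFinset] at hc'
    refine H.four _ ?_ (h c hc') (h1 c)
    obtain ⟨v, hv, hv'⟩ := hc'
    exact ⟨v, hv, hv'⟩
  have h4 := Finset.card_nsmul_le_sum hf.toFinset (fun c => (bd G {v | v ∈ C ∧ f v = c}).ncard) 4 h3
  rw [smul_eq_mul] at h4
  rw [← h2, Set.ncard_eq_toFinset_card _ hf, mul_comm]
  exact h4

theorem s_SOLU : S_SOLU.{u} := by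
  classical
  intro V _ G H
  have hb : bd G (Set.univ : Set V) = ∅ := by
    rw [Set.eq_empty_iff_forall_notMem]
    rintro e ⟨_, _, v, _, hv⟩
    exact hv (Set.mem_univ v)
  refine ⟨Set.univ_nonempty, by rw [hb]; exact Set.finite_empty, fun f hf hc => ?_⟩
  by_cases h : ∀ c ∈ f '' Set.univ, ∃ v, v ∉ cls Set.univ f c
  · have := bound H hf hc (by rw [hb]; exact Set.finite_empty) h
    rw [hb, Set.ncard_empty] at this
    omega
  · push Not at h
    obtain ⟨c, _, hc2⟩ := h
    have : f '' Set.univ ⊆ {c} := by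
      rintro _ ⟨v, _, rfl⟩
      exact (hc2 v).2
    have := Set.ncard_le_ncard this (Set.finite_singleton c)
    rw [Set.ncard_singleton] at this
    omega

theorem s_SCON : S_SCON.{u} := by
  classical
  intro V G C H a ha b hb
  by_contra hab
  set R : Set V := {v | (SimpleGraph.fromEdgeSet (ins G C)).Reachable a v} with hR
  set f : V → ℕ := fun v => if v ∈ R then 1 else 0 with hf
  have h0 : crs G C f = ∅ := by
    rw [Set.eq_empty_iff_forall_notMem]
    intro e
    induction e using Sym2.ind with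
    | _ u v =>
      rw [mk_crs]
      rintro ⟨h, h1, h2, h3⟩
      have adj : (SimpleGraph.fromEdgeSet (ins G C)).Adj u v := by
        rw [SimpleGraph.fromEdgeSet_adj]
        refine ⟨⟨h, ?_⟩, h.ne⟩
        intro x hx
        rw [Sym2.mem_iff] at hx
        rcases hx with rfl | rfl
        · exact h1
        · exact h2
      have : u ∈ R ↔ v ∈ R :=
        ⟨fun k => k.trans adj.reachable, fun k => k.trans adj.symm.reachable⟩
      apply h3
      simp only [hf, this]
  have hbR : b ∉ R := hab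
  have haR : a ∈ R := SimpleGraph.Reachable.refl a
  have h1 : f '' C = {0, 1} := by
    ext c
    simp only [Set.mem_image, Set.mem_insert_iff, Set.mem_singleton_iff]
    constructor
    · rintro ⟨v, _, rfl⟩
      by_cases k : v ∈ R
      · right; simp only [hf, k, if_true]
      · left; simp only [hf, k, if_false]
    · rintro (rfl | rfl)
      · exact ⟨b, hb, by simp only [hf, if_neg hbR]⟩
      · exact ⟨a, ha, by simp only [hf, if_pos haR]⟩
  have := H.tight f (by rw [h1]; exact Set.toFinite _) (by rw [h0]; exact Set.finite_empty)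
  rw [h0, h1, Set.ncard_empty, Set.ncard_pair (by norm_num)] at this
  omega

end Pool.Agent.L7h63.CE
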