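import Mathlib
import Pool.Agent.L7h3.CE.Stm2
import Pool.Agent.L7h63.CE.Cnt

/-! Colourings of the clique expansion. -/

set_option autoImplicit false

namespace Pool.Agent.L7h63.CE

open Set Pool.Agent.Helper391.Lg
open Pool.Agent.L7h3.CE (crs S_Q4A QV QG C1 Fib Qu Solid)

universe u

/-- a complete graph with at least four vertices coloured with `a` colours has `2 (a - 1)`
bichromatic edges -/
lemma clique {W : Type u} [DecidableEq W] (χ : W → ℕ) (K : Finset W) (hK : 4 ≤ K.card) :
    ∃ E : Finset (Sym2 W), (∀ e ∈ E, ∃ x ∈ K, ∃ y ∈ K, e = s(x, y) ∧ χ x ≠ χ y) ∧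
      2 * (K.image χ).card ≤ E.card + 2 := by
  classical
  by_cases h : ∃ x ∈ K, ∃ y ∈ K, x ≠ y ∧ χ x = χ y
  · obtain ⟨x, hx, y, hy, hxy, hc⟩ := h
    have : Nonempty W := ⟨x⟩
    have hr : ∀ c ∈ K.image χ, ∃ r ∈ K, χ r = c := fun c hc => by
      simpa using hc
    choose! r hrK hrc using hr
    refine ⟨(((K.image χ).erase (χ x)) ×ˢ ({x, y} : Finset W)).image
      (fun p => s(r p.1, p.2)), ?_, ?_⟩
    · intro e he
      rw [Finset.mem_image] at he
      obtain ⟨⟨c, z⟩, hp, rfl⟩ := he
      rw [Finset.mem_product, Finset.mem_erase, Finset.mem_insert, Finset.mem_singleton] at hp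
      obtain ⟨⟨h1, h2⟩, h3⟩ := hp
      simp only at h1 h2 h3 ⊢
      rcases h3 with rfl | rfl
      · exact ⟨r c, hrK c h2, z, hx, rfl, by rw [hrc c h2]; exact h1⟩
      · exact ⟨r c, hrK c h2, z, hy, rfl, by rw [hrc c h2, ← hc]; exact h1⟩
    · have inj : Set.InjOn (fun p : ℕ × W => s(r p.1, p.2))
          ((((K.image χ).erase (χ x)) ×ˢ ({x, y} : Finset W) : Finset (ℕ × W)) : Set (ℕ × W)) := by
        rintro ⟨c, z⟩ hp ⟨c', z'⟩ hp' heq
        rw [Finset.mem_coe, Finset.mem_product, Finset.mem_erase, Finset.mem_insert,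
          Finset.mem_singleton] at hp hp'
        obtain ⟨⟨h1, h2⟩, h3⟩ := hp
        obtain ⟨⟨h1', h2'⟩, h3'⟩ := hp'
        simp only at h1 h2 h3 h1' h2' h3' heq
        have ez : χ z = χ x := by
          rcases h3 with rfl | rfl
          · rfl
          · exact hc.symm
        have ez' : χ z' = χ x := by
          rcases h3' with rfl | rfl
          · rfl
          · exact hc.symm
        rw [Sym2.eq_iff] at heq
        rcases heq with ⟨e1, e2⟩ | ⟨e1, e2⟩
        · have : c = c' := by rw [← hrc c h2, ← hrc c' h2', e1]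
          rw [this, e2]
        · exfalso
          apply h1
          rw [← hrc c h2, e1, ez']
      rw [Finset.card_image_of_injOn inj, Finset.card_product, Finset.card_pair hxy,
        Finset.card_erase_of_mem (Finset.mem_image_of_mem χ hx)]
      omega
  · push Not at h
    refine ⟨K.offDiag.image Sym2.mk.uncurry, ?_, ?_⟩
    · intro e he
      rw [Finset.mem_image] at he
      obtain ⟨⟨a, b⟩, hp, rfl⟩ := he
      rw [Finset.mem_offDiag] at hp
      exact ⟨a, hp.1, b, hp.2.1, rfl, h a hp.1 b hp.2.1 hp.2.2⟩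
    · rw [Sym2.card_image_offDiag, Nat.choose_two_right]
      have h1 : (K.image χ).card ≤ K.card := Finset.card_image_le
      obtain ⟨N, hN⟩ : ∃ N, K.card = N + 4 := ⟨K.card - 4, by omega⟩
      rw [hN] at h1 ⊢
      have h2 : 2 * N + 6 ≤ (N + 4) * (N + 4 - 1) / 2 := by
        rw [Nat.le_div_iff_mul_le (by norm_num)]
        have : N + 4 - 1 = N + 3 := by omega
        rw [this]
        nlinarith
      omega

theorem s_Q4A : S_Q4A.{u} := by
  classical
  intro V G k Q χ
  induction hn : (χ '' C1 G k).ncard using Nat.strong_induction_on generalizing χ with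
  | _ n IH =>
  intro hfin hcrs
  by_cases hcon : ∀ p q : QV G k, p.1.1 ≠ 0 → p.1.1 = q.1.1 → χ p = χ q
  · -- constant on the cliques
    have ex : ∀ v : V, ∃ p : QV G k, p.1.1 = k v := fun v =>
      ⟨⟨(k v, Sum.inr 0), ⟨v, rfl⟩, fun e he => by simp at he⟩, rfl⟩
    choose P hP using ex
    set f : V → ℕ := fun v => χ (P v) with hf
    have hfv : ∀ (v : V) (p : QV G k), k v ≠ 0 → p.1.1 = k v → f v = χ p := fun v p h0 hp =>
      hcon (P v) p (by rw [hP v]; exact h0) (by rw [hP v, hp])
    have img : f '' {v | k v ≠ 0} = χ '' C1 G k := by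
      ext c
      constructor
      · rintro ⟨v, hv, rfl⟩
        refine ⟨P v, ?_, rfl⟩
        change (P v).1.1 ≠ 0
        rw [hP v]
        exact hv
      · rintro ⟨p, hp, rfl⟩
        obtain ⟨v, hv⟩ := p.2.1
        have h0 : k v ≠ 0 := by rw [hv]; exact hp
        exact ⟨v, h0, hfv v p h0 hv.symm⟩
    have hφ : ∀ e ∈ crs G {v | k v ≠ 0} f, ∃ e' ∈ crs (QG G k) (C1 G k) χ,
        ∀ x ∈ e', x.1.2 = Sum.inl e := by
      intro e
      induction e using Sym2.ind with
      | _ u v =>
        rw [mk_crs]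
        rintro ⟨h1, h2, h3, h4⟩
        have hk : k u ≠ k v := fun h => h4 (by
          rw [hfv u (P v) h2 (by rw [hP v, h]), hfv v (P v) h3 (hP v)])
        have m1 : s(u, v) ∈ bd G (Fib k (k u)) :=
          mk_bd.2 ⟨h1, Or.inl ⟨rfl, fun h => hk h.symm⟩⟩
        have m2 : s(u, v) ∈ bd G (Fib k (k v)) :=
          mk_bd.2 ⟨h1, Or.inr ⟨rfl, fun h => hk h⟩⟩
        set p : QV G k := ⟨(k u, Sum.inl s(u, v)), ⟨u, rfl⟩, fun e he => by
          simp only [Sum.inl.injEq] at he
          rw [← he]; exact m1⟩ with hp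
        set q : QV G k := ⟨(k v, Sum.inl s(u, v)), ⟨v, rfl⟩, fun e he => by
          simp only [Sum.inl.injEq] at he
          rw [← he]; exact m2⟩ with hq
        refine ⟨s(p, q), mk_crs.2 ⟨?_, h2, h3, ?_⟩, ?_⟩
        · refine ⟨fun h => hk ?_, Or.inr ⟨rfl, s(u, v), rfl⟩⟩
          exact congrArg (fun p : QV G k => p.1.1) h
        · rw [← hfv u p h2 rfl, ← hfv v q h3 rfl]
          exact h4
        · intro x hx
          rcases Sym2.mem_iff.1 hx with rfl | rfl
          · rfl
          · rfl
    obtain ⟨v0, _⟩ := Q.zero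
    have : Nonempty (Sym2 (QV G k)) := ⟨s(P v0, P v0)⟩
    choose! φ hφ1 hφ2 using hφ
    have inj : Set.InjOn φ (crs G {v | k v ≠ 0} f) := by
      intro e he e' he' heq
      obtain ⟨x, hx⟩ : ∃ x, x ∈ φ e := by
        induction (φ e) using Sym2.ind with
        | _ a b => exact ⟨a, Sym2.mem_mk_left a b⟩
      have h1 := hφ2 e he x hx
      have h2 := hφ2 e' he' x (by rw [← heq]; exact hx)
      rw [h1] at h2
      exact Sum.inl.inj h2
    have fc : (crs G {v | k v ≠ 0} f).Finite := Set.Finite.of_injOn hφ1 inj hcrs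
    have t := Q.sol.tight f (by rw [img]; exact hfin) fc
    rw [img, hn] at t
    have le : (crs G {v | k v ≠ 0} f).ncard ≤ (crs (QG G k) (C1 G k) χ).ncard :=
      Set.ncard_le_ncard_of_injOn φ hφ1 inj hcrs
    omega
  · push Not at hcon
    obtain ⟨p, q, hp0, hpq, hχ⟩ := hcon
    set j := p.1.1 with hj
    set K : Set (QV G k) := {x | x.1.1 = j} with hK
    have Kfin : K.Finite := by
      refine Set.Finite.of_injOn (f := fun x : QV G k => x.1.2)
        (t := Sum.inl '' (bd G (Fib k j)) ∪ Set.range Sum.inr) ?_ ?_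
        (((Q.fin j).image _).union (Set.finite_range _))
      · intro x hx
        have hx' : x.1.1 = j := hx
        simp only
        rcases h : x.1.2 with e | i
        · left
          refine ⟨e, ?_, rfl⟩
          rw [← hx']
          exact x.2.2 e h
        · right
          exact ⟨i, rfl⟩
      · intro x hx y hy hxy
        have hx' : x.1.1 = j := hx
        have hy' : y.1.1 = j := hy
        exact Subtype.ext (Prod.ext (hx'.trans hy'.symm) hxy)
    set Kf := Kfin.toFinset with hKf
    have mK : ∀ x, x ∈ Kf ↔ x.1.1 = j := fun x => by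
      rw [hKf, Set.Finite.mem_toFinset]; rfl
    have card5 : 4 ≤ Kf.card := by
      have hv := p.2.1
      let g : Fin 5 → QV G k := fun i => ⟨(j, Sum.inr i), hv, fun e he => by simp at he⟩
      have gi : Function.Injective g := fun a b hab => by
        have := congrArg (fun p : QV G k => p.1.2) hab
        exact Sum.inr.inj this
      have : (Finset.univ.image g) ⊆ Kf := by
        intro x hx
        rw [Finset.mem_image] at hx
        obtain ⟨i, _, rfl⟩ := hx
        rw [mK]
      have := Finset.card_le_card this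
      rw [Finset.card_image_of_injective _ gi, Finset.card_univ, Fintype.card_fin] at this
      omega
    obtain ⟨E, hE1, hE2⟩ := clique χ Kf card5
    set A := Kf.image χ with hA
    have pK : p ∈ Kf := (mK p).2 rfl
    have qK : q ∈ Kf := (mK q).2 hpq.symm
    have hc0 : χ p ∈ A := Finset.mem_image_of_mem χ pK
    have hA2 : 2 ≤ A.card := by
      have : ({χ p, χ q} : Finset ℕ) ⊆ A := by
        intro c hc
        rw [Finset.mem_insert, Finset.mem_singleton] at hc
        rcases hc with rfl | rfl
        · exact hc0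
        · exact Finset.mem_image_of_mem χ qK
      have := Finset.card_le_card this
      rwa [Finset.card_pair hχ] at this
    set χ' : QV G k → ℕ := fun x => if χ x ∈ A then χ p else χ x with hχ'
    have c1 : ∀ x, χ x ∈ A → χ' x = χ p := fun x hx => by simp only [hχ', if_pos hx]
    have c2 : ∀ x, χ x ∉ A → χ' x = χ x := fun x hx => by simp only [hχ', if_neg hx]
    have sub : (A : Set ℕ) ⊆ χ '' C1 G k := by
      intro c hc
      rw [Finset.mem_coe, hA, Finset.mem_image] at hc
      obtain ⟨x, hx, rfl⟩ := hc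
      refine ⟨x, ?_, rfl⟩
      change x.1.1 ≠ 0
      rw [(mK x).1 hx]
      exact hp0
    have img : χ' '' C1 G k = insert (χ p) ((χ '' C1 G k) \ A) := by
      ext c
      constructor
      · rintro ⟨x, hx, rfl⟩
        by_cases h : χ x ∈ A
        · left; exact c1 x h
        · right; rw [c2 x h]; exact ⟨⟨x, hx, rfl⟩, h⟩
      · rintro (rfl | ⟨⟨x, hx, rfl⟩, h⟩)
        · exact ⟨p, hp0, c1 p hc0⟩
        · exact ⟨x, hx, c2 x h⟩
    have n1 : (χ' '' C1 G k).ncard = ((χ '' C1 G k) \ A).ncard + 1 := by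
      rw [img, Set.ncard_insert_of_notMem ?_ (hfin.subset Set.sdiff_subset)]
      exact fun h => h.2 hc0
    have n2 : ((χ '' C1 G k) \ A).ncard + A.card = n := by
      rw [← hn, ← Set.ncard_coe_finset A]
      exact Set.ncard_sdiff_add_ncard_of_subset sub hfin
    have csub : crs (QG G k) (C1 G k) χ' ⊆ crs (QG G k) (C1 G k) χ := by
      intro e
      induction e using Sym2.ind with
      | _ x y =>
        rw [mk_crs, mk_crs]
        rintro ⟨h1, h2, h3, h4⟩
        exact ⟨h1, h2, h3, fun h => h4 (by simp only [hχ', h])⟩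
    have esub : (E : Set (Sym2 (QV G k))) ⊆ crs (QG G k) (C1 G k) χ := by
      intro e he
      obtain ⟨x, hx, y, hy, rfl, hxy⟩ := hE1 e he
      have hx' := (mK x).1 hx
      have hy' := (mK y).1 hy
      refine mk_crs.2 ⟨⟨fun h => hxy (by rw [h]), Or.inl (hx'.trans hy'.symm)⟩, ?_, ?_, hxy⟩
      · change x.1.1 ≠ 0
        rw [hx']; exact hp0
      · change y.1.1 ≠ 0
        rw [hy']; exact hp0
    have dj : Disjoint (crs (QG G k) (C1 G k) χ') (E : Set (Sym2 (QV G k))) := by
      rw [Set.disjoint_left]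
      intro e h1 h2
      obtain ⟨x, hx, y, hy, rfl, hxy⟩ := hE1 e h2
      rw [mk_crs] at h1
      exact h1.2.2.2 (by
        rw [c1 x (Finset.mem_image_of_mem χ hx), c1 y (Finset.mem_image_of_mem χ hy)])
    have hc' : (crs (QG G k) (C1 G k) χ').Finite := hcrs.subset csub
    have n3 : (crs (QG G k) (C1 G k) χ').ncard + E.card ≤ (crs (QG G k) (C1 G k) χ).ncard := by
      rw [← Set.ncard_coe_finset E, ← Set.ncard_union_eq dj hc' E.finite_toSet]
      exact Set.ncard_le_ncard (Set.union_subset csub esub) hcrs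
    have hf' : (χ' '' C1 G k).Finite := by
      rw [img]
      exact (hfin.subset Set.sdiff_subset).insert _
    have ih := IH (χ' '' C1 G k).ncard (by omega) χ' rfl hf' hc'
    omega

end Pool.Agent.L7h63.CE
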