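import Mathlib
import Pool.Agent.Helper391.Lg.P_rk_lower
import Pool.Agent.Helper391.Lg.P_h_opt
import Pool.Agent.Helper391.Lg.P_opt_exists
import Pool.Agent.L7h3.CE.Stm2
import Pool.Agent.L7h63.CE.Cnt

/-! Condition (I) from colourings. -/

set_option autoImplicit false

namespace Pool.Agent.L7h63.CE

open Set Pool.Agent.Helper391.Lg
open Pool.Agent.L7h3.CE (crs S_Q4B)

universe u

/-- `U` has at most rank plus number of components elements -/
lemma rk_rep {W : Type u} (H : SimpleGraph W) (hfin : ∀ v, (H.neighborSet v).Finite)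
    (U : Set W) (hU : U.Finite) (T : Set (Sym2 W)) (hT : T ⊆ ins H U) (rep : W → W)
    (hrep : ∀ u ∈ U, (SimpleGraph.fromEdgeSet T).Reachable (rep u) u) :
    U.ncard ≤ rk chi T + (rep '' U).ncard := by
  classical
  have hTfin : T.Finite := (inc_finite H hfin ∅ U hU).2.1.subset hT
  have : FiniteDimensional (ZMod 2) (Submodule.span (ZMod 2) (chi '' T)) :=
    FiniteDimensional.span_of_finite _ (hTfin.image _)
  have : Fintype U := hU.fintype
  have hRf : (rep '' U).Finite := hU.image _
  have : Fintype (rep '' U) := hRf.fintype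
  have hli : LinearIndependent (ZMod 2) (fun v : U => (Pi.single (v : W) (1 : ZMod 2) : W → ZMod 2)) :=
    (Pi.linearIndependent_single_one W (ZMod 2)).comp (fun v : U => (v : W)) Subtype.val_injective
  have hcard := finrank_span_eq_card hli
  have : FiniteDimensional (ZMod 2) (Submodule.span (ZMod 2)
      (Set.range (fun v : (rep '' U : Set W) => (Pi.single (v : W) (1 : ZMod 2) : W → ZMod 2)))) :=
    FiniteDimensional.span_of_finite _ (Set.finite_range _)
  have hle : Submodule.span (ZMod 2) (Set.range (fun v : U => (Pi.single (v : W) (1 : ZMod 2) : W → ZMod 2))) ≤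
      Submodule.span (ZMod 2) (chi '' T) ⊔ Submodule.span (ZMod 2)
        (Set.range (fun v : (rep '' U : Set W) => (Pi.single (v : W) (1 : ZMod 2) : W → ZMod 2))) := by
    rw [Submodule.span_le]
    rintro _ ⟨v, rfl⟩
    obtain ⟨p⟩ := hrep v.1 v.2
    have h1 := rk_lower_walk T (rep v.1) v.1 p
    have h2 : (Pi.single (v : W) (1 : ZMod 2) : W → ZMod 2) =
        ((Pi.single (v : W) (1 : ZMod 2) : W → ZMod 2) - Pi.single (rep v.1) 1) +
          Pi.single (rep v.1) 1 := by abel
    change (Pi.single (v : W) (1 : ZMod 2) : W → ZMod 2) ∈ _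
    rw [h2]
    refine Submodule.add_mem_sup h1 (Submodule.subset_span ?_)
    exact ⟨⟨rep v.1, v.1, v.2, rfl⟩, rfl⟩
  have h1 := Submodule.finrank_mono hle
  have h2 := Submodule.finrank_add_le_finrank_add_finrank
    (Submodule.span (ZMod 2) (chi '' T))
    (Submodule.span (ZMod 2)
        (Set.range (fun v : (rep '' U : Set W) => (Pi.single (v : W) (1 : ZMod 2) : W → ZMod 2))))
  have h3 := finrank_range_le_card (R := ZMod 2)
    (fun v : (rep '' U : Set W) => (Pi.single (v : W) (1 : ZMod 2) : W → ZMod 2))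
  have h4 : U.ncard = Fintype.card U := by
    rw [← Nat.card_eq_fintype_card, Nat.card_coe_set_eq]
  have h4' : (rep '' U).ncard = Fintype.card (rep '' U) := by
    rw [← Nat.card_eq_fintype_card, Nat.card_coe_set_eq]
  have h5 : rk chi T = Module.finrank (ZMod 2) (Submodule.span (ZMod 2) (chi '' T)) := rfl
  have h6 : Module.finrank (ZMod 2) (Submodule.span (ZMod 2) (Set.range
      (fun v : (rep '' U : Set W) => (Pi.single (v : W) (1 : ZMod 2) : W → ZMod 2)))) ≤
      Fintype.card (rep '' U) := h3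
  rw [h4, h4', h5]
  omega

theorem s_Q4B : S_Q4B.{u} := by
  classical
  intro W H F hfin hF hχ U hU hUF
  obtain ⟨T, hT⟩ := opt_exists H hfin U hU
  rw [h_opt H F U T hT]
  have hTU : ∀ e ∈ T, ∀ x ∈ e, x ∈ U := fun e he x hx => (hT.1 he).2 x hx
  have hdis : ∀ v, v ∈ U → v ∉ F := fun v h1 h2 => Set.disjoint_left.1 hUF h1 h2
  have reachU : ∀ a b, (SimpleGraph.fromEdgeSet T).Reachable a b → a ∈ U → b ∈ U := by
    intro a b hab ha
    rw [SimpleGraph.reachable_iff_reflTransGen] at hab
    induction hab with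
    | refl => exact ha
    | tail _ hbc _ =>
      have h1 := (SimpleGraph.fromEdgeSet_adj _).1 hbc
      exact hTU _ h1.1 _ (Sym2.mem_mk_right _ _)
  set rep : W → W := fun v =>
    ((SimpleGraph.fromEdgeSet T).connectedComponentMk v).out with hrepdef
  have hrep : ∀ u, (SimpleGraph.fromEdgeSet T).Reachable (rep u) u := by
    intro u
    rw [← SimpleGraph.ConnectedComponent.eq]
    exact Quot.out_eq _
  have hrep2 : ∀ a b, (SimpleGraph.fromEdgeSet T).Reachable a b → rep a = rep b := by
    intro a b hab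
    have := SimpleGraph.ConnectedComponent.eq.2 hab
    simp only [hrepdef, this]
  have repU : ∀ u ∈ U, rep u ∈ U := fun u hu => reachU u (rep u) (hrep u).symm hu
  obtain ⟨code, hcode⟩ : ∃ code : W → ℕ, Set.InjOn code U := Set.countable_iff_exists_injOn.1 hU.countable
  set χ : W → ℕ := fun v => if v ∈ U then code (rep v) + 1 else 0 with hχdef
  have cin : ∀ v ∈ U, χ v = code (rep v) + 1 := fun v hv => by simp only [hχdef, if_pos hv]
  have cout : ∀ v, v ∉ U → χ v = 0 := fun v hv => by simp only [hχdef, if_neg hv]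
  have hRf : (rep '' U).Finite := hU.image _
  have hsub : (rep '' U) ⊆ U := by rintro _ ⟨v, hv, rfl⟩; exact repU v hv
  have img : χ '' Fᶜ = insert 0 ((fun w => code w + 1) '' (rep '' U)) := by
    ext c
    constructor
    · rintro ⟨v, hv, rfl⟩
      by_cases k : v ∈ U
      · exact Or.inr ⟨rep v, ⟨v, k, rfl⟩, (cin v k).symm⟩
      · exact Or.inl (cout v k)
    · rintro (rfl | ⟨_, ⟨v, hv, rfl⟩, rfl⟩)
      · obtain ⟨w, hw, hw'⟩ := (hF.sdiff hU).nonempty
        exact ⟨w, hw, cout w hw'⟩
      · exact ⟨v, hdis v hv, cin v hv⟩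
  have card1 : (χ '' Fᶜ).ncard = (rep '' U).ncard + 1 := by
    rw [img, Set.ncard_insert_of_notMem ?_ (hRf.image _)]
    · rw [Set.ncard_image_of_injOn]
      intro a ha b hb hab
      exact hcode (hsub ha) (hsub hb) (by simpa using hab)
    · rintro ⟨w, _, hw⟩
      simp at hw
  obtain ⟨finc, fins, _⟩ := inc_finite H hfin F U hU
  have hTinc : T ⊆ inc H F U := by
    intro e he
    obtain ⟨h1, h2⟩ := hT.1 he
    refine ⟨h1, fun v hv => hdis v (h2 v hv), ?_⟩
    induction e with
    | _ a b => exact ⟨a, Sym2.mem_mk_left a b, h2 a (Sym2.mem_mk_left a b)⟩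
  have hcrs : crs H Fᶜ χ ⊆ inc H F U \ T := by
    intro e
    induction e using Sym2.ind with
    | _ a b =>
      rw [mk_crs]
      rintro ⟨h1, h2, h3, h4⟩
      refine ⟨⟨h1, ?_, ?_⟩, ?_⟩
      · intro x hx
        rcases Sym2.mem_iff.1 hx with rfl | rfl
        · exact h2
        · exact h3
      · by_cases ka : a ∈ U
        · exact ⟨a, Sym2.mem_mk_left a b, ka⟩
        · by_cases kb : b ∈ U
          · exact ⟨b, Sym2.mem_mk_right a b, kb⟩
          · exact absurd ((cout a ka).trans (cout b kb).symm) h4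
      · intro hTab
        have ka : a ∈ U := hTU _ hTab a (Sym2.mem_mk_left a b)
        have kb : b ∈ U := hTU _ hTab b (Sym2.mem_mk_right a b)
        have adj : (SimpleGraph.fromEdgeSet T).Adj a b :=
          (SimpleGraph.fromEdgeSet_adj _).2 ⟨hTab, h1.ne⟩
        apply h4
        rw [cin a ka, cin b kb, hrep2 a b adj.reachable]
  have hTf : T.Finite := fins.subset hT.1
  have hfc : (crs H Fᶜ χ).Finite := (finc.subset Set.sdiff_subset).subset hcrs
  have e1 := hχ χ (by rw [img]; exact (hRf.image _).insert 0) hfc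
  have e2 : (crs H Fᶜ χ).ncard ≤ (inc H F U \ T).ncard :=
    Set.ncard_le_ncard hcrs (finc.subset Set.sdiff_subset)
  have e3 : (inc H F U \ T).ncard + T.ncard = (inc H F U).ncard :=
    Set.ncard_sdiff_add_ncard_of_subset hTinc finc
  have e4 := rk_rep H hfin U hU T hT.1 rep fun u _ => hrep u
  rw [cost]
  omega

end Pool.Agent.L7h63.CE
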