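import Mathlib
import Pool.Agent.L7h63.CE.Cnt

/-! Solid refinements. -/

set_option autoImplicit false

namespace Pool.Agent.L7h63.CE

open Set Pool.Agent.Helper391.Lg
open Pool.Agent.L7h3.CE (crs Solid Four S_REF)

universe u

variable {V : Type u}

lemma bound' {G : SimpleGraph V} (H : Four G) {C : Set V} {f : V → ℕ} (hf : (f '' C).Finite)
    (hc : (crs G C f).Finite) (hb : (bd G C).Finite) :
    4 * (f '' C).ncard ≤ 2 * (crs G C f).ncard + (bd G C).ncard + 4 := by
  by_cases h : ∀ c ∈ f '' C, ∃ v, v ∉ cls C f c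
  · have := bound H hf hc hb h
    omega
  · push Not at h
    obtain ⟨c, _, hc2⟩ := h
    have : f '' C ⊆ {c} := by
      rintro _ ⟨v, _, rfl⟩
      exact (hc2 v).2
    have := Set.ncard_le_ncard this (Set.finite_singleton c)
    rw [Set.ncard_singleton] at this
    omega

theorem s_REF : S_REF.{u} := by
  classical
  intro V G H C hne hb g hg hgc
  set T : Set (V → ℕ) := {f | (f '' C).Finite ∧ (crs G C f).Finite ∧
    ∀ u ∈ C, ∀ v ∈ C, f u = f v → g u = g v} with hT
  set ψ : (V → ℕ) → ℕ := fun f => (crs G C f).ncard + (bd G C).ncard + 4 - 2 * (f '' C).ncard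
    with hψ
  obtain ⟨f, hf, hmin⟩ := (measure ψ).wf.has_min T ⟨g, hg, hgc, fun _ _ _ _ h => h⟩
  obtain ⟨f1, f2, f3⟩ := hf
  refine ⟨f, f1, f2, f3, ?_⟩
  intro c hc
  obtain ⟨w, hw, hwc⟩ := hc
  refine ⟨⟨w, hw, hwc⟩, (s_CNT V G C f f1 f2 hb).1 c, ?_⟩
  change ∀ f' : V → ℕ, (f' '' cls C f c).Finite → (crs G (cls C f c) f').Finite →
    2 * (f' '' cls C f c).ncard ≤ (crs G (cls C f c) f').ncard + 2
  intro f' h1 h2
  set h : V → ℕ := fun v => if v ∈ cls C f c then 2 * f' v + 1 else 2 * f v with hh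
  have hin : ∀ v, v ∈ cls C f c → h v = 2 * f' v + 1 := fun v hv => by simp only [hh, if_pos hv]
  have hout : ∀ v, v ∉ cls C f c → h v = 2 * f v := fun v hv => by simp only [hh, if_neg hv]
  have img : h '' C = (fun x => 2 * x + 1) '' (f' '' cls C f c) ∪
      (fun x => 2 * x) '' ((f '' C) \ {c}) := by
    ext d
    constructor
    · rintro ⟨v, hv, rfl⟩
      by_cases k : v ∈ cls C f c
      · exact Or.inl ⟨f' v, ⟨v, k, rfl⟩, (hin v k).symm⟩
      · exact Or.inr ⟨f v, ⟨⟨v, hv, rfl⟩, fun k' => k ⟨hv, k'⟩⟩, (hout v k).symm⟩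
    · rintro (⟨_, ⟨v, hv, rfl⟩, rfl⟩ | ⟨_, ⟨⟨v, hv, rfl⟩, k⟩, rfl⟩)
      · exact ⟨v, hv.1, hin v hv⟩
      · exact ⟨v, hv, hout v fun k' => k k'.2⟩
  have fimg : (h '' C).Finite := by
    rw [img]
    exact (h1.image _).union ((f1.subset Set.sdiff_subset).image _)
  have card1 : (h '' C).ncard + 1 = (f' '' cls C f c).ncard + (f '' C).ncard := by
    have i1 : Function.Injective (fun x : ℕ => 2 * x + 1) := fun a b hab => by
      simp only at hab; omega
    have i2 : Function.Injective (fun x : ℕ => 2 * x) := fun a b hab => by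
      simp only at hab; omega
    have hcm : c ∈ f '' C := ⟨w, hw, hwc⟩
    rw [img, Set.ncard_union_eq ?_ (h1.image _) ((f1.subset Set.sdiff_subset).image _),
      Set.ncard_image_of_injective (f' '' cls C f c) i1,
      Set.ncard_image_of_injective ((f '' C) \ {c}) i2, add_assoc,
      Set.ncard_sdiff_singleton_add_one hcm f1]
    rw [Set.disjoint_left]
    rintro _ ⟨a, _, rfl⟩ ⟨b, _, hb'⟩
    simp only at hb'
    omega
  have ecrs : crs G C h = crs G C f ∪ crs G (cls C f c) f' := by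
    ext e
    induction e using Sym2.ind with
    | _ u v =>
      rw [Set.mem_union, mk_crs, mk_crs, mk_crs]
      constructor
      · rintro ⟨a1, a2, a3, a4⟩
        by_cases ku : u ∈ cls C f c <;> by_cases kv : v ∈ cls C f c
        · rw [hin u ku, hin v kv] at a4
          exact Or.inr ⟨a1, ku, kv, fun h => a4 (by rw [h])⟩
        · exact Or.inl ⟨a1, a2, a3, fun h => kv ⟨a3, by rw [← h]; exact ku.2⟩⟩
        · exact Or.inl ⟨a1, a2, a3, fun h => ku ⟨a2, by rw [h]; exact kv.2⟩⟩
        · rw [hout u ku, hout v kv] at a4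
          exact Or.inl ⟨a1, a2, a3, fun h => a4 (by rw [h])⟩
      · rintro (⟨a1, a2, a3, a4⟩ | ⟨a1, a2, a3, a4⟩)
        · refine ⟨a1, a2, a3, ?_⟩
          by_cases ku : u ∈ cls C f c <;> by_cases kv : v ∈ cls C f c
          · exact absurd (ku.2.trans kv.2.symm) a4
          · rw [hin u ku, hout v kv]; omega
          · rw [hout u ku, hin v kv]; omega
          · rw [hout u ku, hout v kv]; omega
        · refine ⟨a1, a2.1, a3.1, ?_⟩
          rw [hin u a2, hin v a3]
          omega
  have dj : Disjoint (crs G C f) (crs G (cls C f c) f') := by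
    rw [Set.disjoint_left]
    intro e
    induction e using Sym2.ind with
    | _ u v =>
      rw [mk_crs, mk_crs]
      rintro ⟨_, _, _, a4⟩ ⟨_, b2, b3, _⟩
      exact a4 (b2.2.trans b3.2.symm)
  have fcrs : (crs G C h).Finite := by rw [ecrs]; exact f2.union h2
  have card2 : (crs G C h).ncard = (crs G C f).ncard + (crs G (cls C f c) f').ncard := by
    rw [ecrs, Set.ncard_union_eq dj f2 h2]
  have hmem : h ∈ T := by
    refine ⟨fimg, fcrs, fun u hu v hv huv => ?_⟩
    by_cases ku : u ∈ cls C f c <;> by_cases kv : v ∈ cls C f c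
    · exact f3 u hu v hv (ku.2.trans kv.2.symm)
    · rw [hin u ku, hout v kv] at huv; omega
    · rw [hout u ku, hin v kv] at huv; omega
    · rw [hout u ku, hout v kv] at huv
      exact f3 u hu v hv (by omega)
  have hm := hmin h hmem
  have hm' : ¬ ψ h < ψ f := hm
  have b1 := bound' H f1 f2 hb
  have b2 := bound' H fimg fcrs hb
  simp only [hψ] at hm'
  omega

end Pool.Agent.L7h63.CE
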